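import Mathlib
import Pool.Agent.U73.LS.Stm2

set_option autoImplicit false

/-!
# Package TAIL: point masses and tails (helper678, for project LS of helper73)
-/

namespace Pool.Agent.U678.LS.TAIL

open Finset Filter Topology
open Pool.Agent.U73.LS

/-- the product of `p + 1` over the primes dividing `n` -/
noncomputable def w (n : ℕ) : ℝ := ∏ p ∈ n.primeFactors, ((p : ℝ) + 1)

theorem w_pos (n : ℕ) : 0 < w n := Finset.prod_pos fun p _ => by positivity

theorem w_one : w 1 = 1 := by simp [w]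

theorem w_mul {m n : ℕ} (h : m.Coprime n) : w (m * n) = w m * w n := by
  unfold w
  rw [h.primeFactors_mul, Finset.prod_union h.disjoint_primeFactors]

theorem w_prime_pow {p : ℕ} (hp : p.Prime) (k : ℕ) : w (p ^ (k + 1)) = p + 1 := by
  unfold w
  rw [Nat.primeFactors_prime_pow (Nat.succ_ne_zero k) hp, Finset.prod_singleton]

/-- the function `n ^ (-e) / w n` -/
noncomputable def f (e : ℝ) (n : ℕ) : ℝ := if n = 0 then 0 else (n : ℝ) ^ (-e) / w n

theorem f_nonneg (e : ℝ) (n : ℕ) : 0 ≤ f e n := by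
  unfold f
  split_ifs
  · exact le_rfl
  · have := w_pos n
    positivity

theorem f_one (e : ℝ) : f e 1 = 1 := by simp [f, w_one]

theorem f_mul (e : ℝ) {m n : ℕ} (h : m.Coprime n) : f e (m * n) = f e m * f e n := by
  unfold f
  by_cases hm : m = 0
  · simp [hm]
  by_cases hn : n = 0
  · simp [hn]
  rw [if_neg (Nat.mul_ne_zero hm hn), if_neg hm, if_neg hn, w_mul h, Nat.cast_mul,
    Real.mul_rpow (Nat.cast_nonneg m) (Nat.cast_nonneg n)]
  have := w_pos m
  have := w_pos n
  field_simp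

theorem f_prime_pow (e : ℝ) {p : ℕ} (hp : p.Prime) (k : ℕ) :
    f e (p ^ (k + 1)) = ((p : ℝ) ^ (-e)) ^ k * ((p : ℝ) ^ (-e) / (p + 1)) := by
  unfold f
  rw [if_neg (pow_ne_zero _ hp.ne_zero), w_prime_pow hp, Nat.cast_pow, ← Real.rpow_natCast,
    ← Real.rpow_mul (Nat.cast_nonneg p), mul_comm ((k + 1 : ℕ) : ℝ) (-e),
    Real.rpow_mul (Nat.cast_nonneg p), Real.rpow_natCast, pow_succ]
  ring

theorem q_bounds {e : ℝ} (he : 0 < e) {p : ℕ} (hp : p.Prime) :
    0 < (p : ℝ) ^ (-e) ∧ (p : ℝ) ^ (-e) ≤ (2 : ℝ) ^ (-e) ∧ (2 : ℝ) ^ (-e) < 1 := by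
  have h0 : (0 : ℝ) < p := by exact_mod_cast hp.pos
  have h2 : (2 : ℝ) ≤ p := by exact_mod_cast hp.two_le
  refine ⟨Real.rpow_pos_of_pos h0 _, ?_, ?_⟩
  · exact Real.rpow_le_rpow_of_nonpos (by norm_num) h2 (by linarith)
  · exact Real.rpow_lt_one_of_one_lt_of_neg (by norm_num) (by linarith)

theorem hasSum_f {e : ℝ} (he : 0 < e) {p : ℕ} (hp : p.Prime) :
    HasSum (fun k => f e (p ^ k)) (1 + (1 - (p : ℝ) ^ (-e))⁻¹ * ((p : ℝ) ^ (-e) / (p + 1))) := by
  obtain ⟨h1, h2, h3⟩ := q_bounds he hp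
  have h := (hasSum_geometric_of_lt_one h1.le (lt_of_le_of_lt h2 h3)).mul_right
    ((p : ℝ) ^ (-e) / (p + 1))
  have h' : HasSum (fun k => f e (p ^ (k + 1)))
      ((1 - (p : ℝ) ^ (-e))⁻¹ * ((p : ℝ) ^ (-e) / (p + 1))) := by
    refine h.congr_fun ?_ |> fun x => x
    intro k
    exact f_prime_pow e hp k
  have h'' := (hasSum_nat_add_iff (f := fun k => f e (p ^ k)) 1).1 h'
  simp only [Finset.sum_range_one, pow_zero, f_one] at h''
  rw [add_comm] at h''
  exact h''

theorem tsum_f_le {e : ℝ} (he : 0 < e) {p : ℕ} (hp : p.Prime) :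
    ∑' k, f e (p ^ k) ≤ Real.exp ((1 - (2 : ℝ) ^ (-e))⁻¹ * (p : ℝ) ^ (-(1 + e))) := by
  obtain ⟨h1, h2, h3⟩ := q_bounds he hp
  have h0 : (0 : ℝ) < p := by exact_mod_cast hp.pos
  rw [(hasSum_f he hp).tsum_eq]
  have h4 : (1 - (p : ℝ) ^ (-e))⁻¹ ≤ (1 - (2 : ℝ) ^ (-e))⁻¹ :=
    inv_anti₀ (by linarith) (by linarith)
  have h5 : (p : ℝ) ^ (-e) / (p + 1) ≤ (p : ℝ) ^ (-(1 + e)) := by
    rw [show -(1 + e) = -e - 1 by ring, Real.rpow_sub_one h0.ne']
    exact div_le_div_of_nonneg_left h1.le h0 (by linarith)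
  have h6 : (1 - (p : ℝ) ^ (-e))⁻¹ * ((p : ℝ) ^ (-e) / (p + 1)) ≤
      (1 - (2 : ℝ) ^ (-e))⁻¹ * (p : ℝ) ^ (-(1 + e)) :=
    mul_le_mul h4 h5 (by positivity) (inv_nonneg.2 (by linarith))
  have h7 := Real.add_one_le_exp ((1 - (2 : ℝ) ^ (-e))⁻¹ * (p : ℝ) ^ (-(1 + e)))
  linarith

theorem summable_f {e : ℝ} (he : 0 < e) : Summable (f e) := by
  have hz : Summable (fun n : ℕ => (n : ℝ) ^ (-(1 + e))) := Real.summable_nat_rpow.2 (by linarith)
  set D : ℝ := (1 - (2 : ℝ) ^ (-e))⁻¹ with hD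
  have hD0 : 0 ≤ D := by
    obtain ⟨_, _, h3⟩ := q_bounds he Nat.prime_two
    exact inv_nonneg.2 (by linarith)
  refine summable_of_sum_range_le (c := Real.exp (D * ∑' n : ℕ, (n : ℝ) ^ (-(1 + e))))
    (f_nonneg e) fun N => ?_
  have hsum : ∀ {p : ℕ}, p.Prime → Summable (fun k : ℕ => ‖f e (p ^ k)‖) := by
    intro p hp
    refine (hasSum_f he hp).summable.congr fun k => ?_
    rw [Real.norm_of_nonneg (f_nonneg e _)]
  obtain ⟨-, hs⟩ := EulerProduct.summable_and_hasSum_smoothNumbers_prod_primesBelow_tsum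
    (f_one e) (fun {m n} h => f_mul e h) hsum N
  -- the partial sum is at most the sum over the smooth numbers
  have hle : ∑ n ∈ Finset.range N, f e n ≤ ∏ p ∈ N.primesBelow, ∑' k : ℕ, f e (p ^ k) := by
    have hind := (hasSum_subtype_iff_indicator (f := f e) (s := N.smoothNumbers)).1 hs
    have h1 : ∑ n ∈ Finset.range N, f e n =
        ∑ n ∈ Finset.range N, (N.smoothNumbers : Set ℕ).indicator (f e) n := by
      refine Finset.sum_congr rfl fun n hn => ?_
      by_cases h0 : n = 0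
      · subst h0
        by_cases h : 0 ∈ (N.smoothNumbers : Set ℕ)
        · rw [Set.indicator_of_mem h]
        · rw [Set.indicator_of_notMem h]
          simp [f]
      · have : n ∈ (N.smoothNumbers : Set ℕ) :=
          Nat.mem_smoothNumbers_of_lt (Nat.pos_of_ne_zero h0) (Finset.mem_range.1 hn)
        rw [Set.indicator_of_mem this]
    rw [h1]
    exact sum_le_hasSum _ (fun n _ => Set.indicator_nonneg (fun m _ => f_nonneg e m) n) hind
  refine hle.trans ?_
  calc ∏ p ∈ N.primesBelow, ∑' k : ℕ, f e (p ^ k)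
      ≤ ∏ p ∈ N.primesBelow, Real.exp (D * (p : ℝ) ^ (-(1 + e))) := by
        refine Finset.prod_le_prod (fun p _ => tsum_nonneg fun k => f_nonneg e _) fun p hp => ?_
        exact tsum_f_le he (Nat.prime_of_mem_primesBelow hp)
    _ = Real.exp (∑ p ∈ N.primesBelow, D * (p : ℝ) ^ (-(1 + e))) := by rw [Real.exp_sum]
    _ ≤ Real.exp (D * ∑' n : ℕ, (n : ℝ) ^ (-(1 + e))) := by
        rw [Real.exp_le_exp, ← Finset.mul_sum]
        refine mul_le_mul_of_nonneg_left ?_ hD0
        exact hz.sum_le_tsum _ fun n _ => Real.rpow_nonneg (Nat.cast_nonneg n) _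

theorem t_TAIL : S_TAIL := by
  intro μ hμ hμ0 hμ1 hdiv hlim
  have hsμ : Summable μ := hμ1.summable
  have hw : ∀ n : ℕ, ∏ p ∈ n.primeFactors, ((p : ℝ) + 1) = w n := fun n => rfl
  -- (1)
  have H1 : Tendsto (fun z => ∏ p ∈ Nat.primesBelow z, (1 - 1 / ((p : ℝ) * ((p : ℝ) + 1)))) atTop
      (𝓝 (μ 1)) := by
    refine (hlim 1 le_rfl).congr fun z => ?_
    refine Finset.prod_congr rfl fun p _ => ?_
    simp [gd]
  refine ⟨H1, ?_, ?_, ?_⟩
  · -- (2)
    intro n hn
    have hn0 : n ≠ 0 := by omega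
    have key : ∀ᶠ z in atTop, (∏ p ∈ Nat.primesBelow z, (1 - 1 / ((p : ℝ) * ((p : ℝ) + 1)))) *
        (1 / n * ∏ p ∈ n.primeFactors, (((p : ℝ) - 1) / ((p : ℝ) ^ 2 + p - 1))) =
        ∏ p ∈ Nat.primesBelow z,
          (gd p (n.factorization p) - gd p (n.factorization p + 1)) := by
      filter_upwards [eventually_gt_atTop n] with z hz
      have hsub : n.primeFactors ⊆ Nat.primesBelow z := by
        intro p hp
        rw [Nat.mem_primesBelow]
        exact ⟨lt_of_le_of_lt (Nat.le_of_mem_primeFactors hp) hz, Nat.prime_of_mem_primeFactors hp⟩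
      have hnprod : (n : ℝ) = ∏ p ∈ n.primeFactors, (p : ℝ) ^ (n.factorization p) := by
        conv_lhs => rw [← Nat.prod_factorization_pow_eq_self hn0]
        rw [Finsupp.prod, Nat.support_factorization, Nat.cast_prod]
        refine Finset.prod_congr rfl fun p _ => by push_cast; rfl
      rw [hnprod, one_div, ← Finset.prod_inv_distrib, ← Finset.prod_mul_distrib,
        ← Finset.prod_sdiff hsub, ← Finset.prod_sdiff hsub, mul_assoc, ← Finset.prod_mul_distrib]
      congr 1
      · refine Finset.prod_congr rfl fun p hp => ?_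
        rw [Finset.mem_sdiff] at hp
        have hp' : p.Prime := Nat.prime_of_mem_primesBelow hp.1
        have h0 : n.factorization p = 0 := by
          refine Nat.factorization_eq_zero_of_not_dvd fun h => hp.2 ?_
          exact Nat.mem_primeFactors.2 ⟨hp', h, hn0⟩
        simp [gd, h0]
      · refine Finset.prod_congr rfl fun p hp => ?_
        have hp' : p.Prime := Nat.prime_of_mem_primeFactors hp
        have hg : n.factorization p ≠ 0 := by
          have := (hp'.factorization_pos_of_dvd hn0 (Nat.dvd_of_mem_primeFactors hp))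
          omega
        have h2 : (2 : ℝ) ≤ p := by exact_mod_cast hp'.two_le
        have h3 : ((p : ℝ) ^ 2 + p - 1) ≠ 0 := by nlinarith
        have h5 : (p : ℝ) ≠ 0 := by linarith
        have h6 : (p : ℝ) + 1 ≠ 0 := by linarith
        have h4 : (p : ℝ) ^ (n.factorization p) ≠ 0 := by positivity
        have e1 : (1 - 1 / ((p : ℝ) * ((p : ℝ) + 1))) =
            ((p : ℝ) ^ 2 + p - 1) / ((p : ℝ) * ((p : ℝ) + 1)) := by
          field_simp
        rw [e1]
        simp only [gd, if_neg hg, if_neg (Nat.succ_ne_zero _), pow_succ _ (n.factorization p)]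
        generalize (p : ℝ) ^ 2 + p - 1 = D at h3
        generalize (p : ℝ) ^ (n.factorization p) = E at h4
        field_simp
    have hT := (H1.mul_const (1 / (n : ℝ) *
      ∏ p ∈ n.primeFactors, (((p : ℝ) - 1) / ((p : ℝ) ^ 2 + p - 1)))).congr' key
    have := tendsto_nhds_unique (hlim n hn) hT
    rw [this]
    ring
  · -- (3)
    intro K hK
    have hcomp : ∀ s t : Set ℕ, (∀ m ∈ s, m ≠ 0 → m ∈ t) →
        ∑' m, s.indicator μ m ≤ ∑' m, t.indicator μ m := by
      intro s t hst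
      refine Summable.tsum_le_tsum (fun m => ?_) (hsμ.indicator s) (hsμ.indicator t)
      by_cases hm : m ∈ s
      · by_cases h0 : m = 0
        · subst h0
          rw [Set.indicator_of_mem hm, hμ0]
          exact Set.indicator_nonneg (fun k _ => hμ k) 0
        · rw [Set.indicator_of_mem hm, Set.indicator_of_mem (hst m hm h0)]
      · rw [Set.indicator_of_notMem hm]
        exact Set.indicator_nonneg (fun k _ => hμ k) m
    by_cases hK1 : K = 1
    · subst hK1
      have h1 : ∑' m, (Set.univ : Set ℕ).indicator μ m ≤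
          ∑' m, ({m | 1 ≤ m} : Set ℕ).indicator μ m :=
        hcomp _ _ fun m _ h0 => Nat.one_le_iff_ne_zero.2 h0
      rw [Set.indicator_univ, hμ1.tsum_eq] at h1
      push_cast
      linarith
    · have hK2 : 1 < K := by omega
      set j := Nat.clog 2 K with hj
      have hj1 : K ≤ 2 ^ j := Nat.le_pow_clog (by norm_num) K
      have hj0 : 0 < j := Nat.clog_pos (by norm_num) hK2
      have hj2 : 2 ^ (j - 1) < K := Nat.pow_pred_clog_lt_self (by norm_num) hK2
      have h1 := hcomp {m | 2 ^ j ∣ m} {m | K ≤ m} fun m hm h0 =>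
        hj1.trans (Nat.le_of_dvd (Nat.pos_of_ne_zero h0) hm)
      rw [hdiv (2 ^ j) (Nat.one_le_two_pow), hw] at h1
      obtain ⟨i, hi⟩ : ∃ i, j = i + 1 := ⟨j - 1, by omega⟩
      rw [hi, w_prime_pow Nat.prime_two] at h1
      rw [hi, Nat.add_sub_cancel] at hj2
      refine le_trans ?_ h1
      have h5 : ((2 : ℝ) ^ i) < K := by exact_mod_cast hj2
      have h6 : (0 : ℝ) < 2 ^ i := by positivity
      push_cast
      rw [pow_succ]
      refine one_div_le_one_div_of_le (by positivity) ?_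
      linarith
  · -- (4)
    intro ε hε
    have hsf : Summable (f ε) := summable_f hε
    refine ⟨∑' n, f ε n, fun K hK => ?_⟩
    have hK0 : (0 : ℝ) < K := by exact_mod_cast hK
    have hpt : ∀ n : ℕ, 1 ≤ n → μ n ≤ 1 / ((n : ℝ) * w n) := by
      intro n hn
      rw [← hw, ← hdiv n hn]
      have h1 : ({m | n ∣ m} : Set ℕ).indicator μ n = μ n :=
        Set.indicator_of_mem (show n ∈ ({m | n ∣ m} : Set ℕ) from dvd_rfl) μ
      rw [← h1]
      exact (hsμ.indicator {m | n ∣ m}).le_tsum n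
        fun k _ => Set.indicator_nonneg (fun m _ => hμ m) k
    by_cases hε1 : ε ≤ 1
    · rw [← tsum_mul_right]
      refine Summable.tsum_le_tsum (fun n => ?_) (hsμ.indicator _) (hsf.mul_right _)
      by_cases hn : n ∈ ({m | K ≤ m} : Set ℕ)
      · rw [Set.indicator_of_mem hn]
        have hn' : K ≤ n := hn
        have hn1 : 1 ≤ n := hK.trans hn'
        have hn0 : n ≠ 0 := by omega
        have hnR : (0 : ℝ) < n := by exact_mod_cast hn1
        refine (hpt n hn1).trans ?_
        have hwn := w_pos n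
        have h1 : (n : ℝ) ^ (-1 + ε) ≤ (K : ℝ) ^ (-1 + ε) :=
          Real.rpow_le_rpow_of_nonpos hK0 (by exact_mod_cast hn') (by linarith)
        have h2 : 1 / ((n : ℝ) * w n) = (n : ℝ) ^ (-ε) / w n * (n : ℝ) ^ (-1 + ε) := by
          have h3 : (n : ℝ) ^ (-ε) * (n : ℝ) ^ (-1 + ε) = (n : ℝ)⁻¹ := by
            rw [← Real.rpow_add hnR, show -ε + (-1 + ε) = (-1 : ℝ) by ring, Real.rpow_neg_one]
          rw [div_mul_eq_mul_div, h3]
          field_simp
        rw [h2]
        unfold f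
        rw [if_neg hn0]
        exact mul_le_mul_of_nonneg_left h1 (by positivity)
      · rw [Set.indicator_of_notMem hn]
        exact mul_nonneg (f_nonneg ε n) (by positivity)
    · -- large ε
      push Not at hε1
      have h1 : ∑' m, ({m | K ≤ m} : Set ℕ).indicator μ m ≤ 1 := by
        rw [← hμ1.tsum_eq]
        refine Summable.tsum_le_tsum (fun m => ?_) (hsμ.indicator _) hsμ
        exact Set.indicator_le_self' (fun k _ => hμ k) m
      have h2 : (1 : ℝ) ≤ (K : ℝ) ^ (-1 + ε) :=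
        Real.one_le_rpow (by exact_mod_cast hK) (by linarith)
      have h3 : (1 : ℝ) ≤ ∑' n, f ε n := by
        have := hsf.le_tsum 1 fun k _ => f_nonneg ε k
        rwa [f_one] at this
      nlinarith

end Pool.Agent.U678.LS.TAIL
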